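import Pool.Agent.Helper22.LIL.Defs

/-! Block PC: a product of cosines as a sum over sign vectors. -/

namespace Pool.Agent.Helper22.LIL

/-- PC: product of cosines. -/
theorem prod_cos (n : ℕ) (φ : Fin n → ℝ) :
    ∏ i, Real.cos (φ i) = (1 / 2) ^ n * ∑ s : Fin n → Bool, Real.cos (∑ i, (sg (s i) : ℝ) * φ i) := by
  induction n with
  | zero => simp
  | succ n ih =>
    rw [Fin.prod_univ_succ, ih (fun i => φ i.succ)]
    rw [← (Fin.consEquiv (fun _ : Fin (n + 1) => Bool)).sum_comp, Fintype.sum_prod_type,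
      Fintype.sum_bool]
    have e : ∀ (b : Bool) (s : Fin n → Bool),
        ∑ i : Fin (n + 1), ((sg ((Fin.consEquiv (fun _ : Fin (n + 1) => Bool)) (b, s) i) : ℤ) : ℝ) * φ i
          = (sg b : ℝ) * φ 0 + ∑ i : Fin n, (sg (s i) : ℝ) * φ i.succ := by
      intro b s
      rw [Fin.sum_univ_succ]
      rfl
    simp_rw [e]
    rw [← Finset.sum_add_distrib, Finset.mul_sum, Finset.mul_sum, Finset.mul_sum]
    refine Finset.sum_congr rfl fun s _ => ?_
    have h1 : (sg true : ℝ) = 1 := by simp [sg]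
    have h2 : (sg false : ℝ) = -1 := by simp [sg]
    rw [h1, h2]
    rw [Real.cos_add, Real.cos_add, one_mul, neg_one_mul, Real.cos_neg, Real.sin_neg]
    ring

end Pool.Agent.Helper22.LIL
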